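import Pool.Agent.H44.Glauber2

open Pool.Agent.H44.Glauber

namespace Pool.Agent.Results.MP_a221c1_pr.NotMonotone

/-- On a connected graph (the path with four vertices) the mixing time of the Glauber dynamics
strictly increases from `q` to `q + 1` colours for some `q ≥ Δ + 2`. -/
theorem result : ∃ (n : ℕ) (G : SimpleGraph (Fin n)) (_ : DecidableRel G.Adj) (q : ℕ),
    G.Connected ∧ G ≠ ⊥ ∧ G.maxDegree + 2 ≤ q ∧ tmix G q < tmix G (q + 1) := by
  obtain ⟨q, hq, h⟩ := exists_increase
  refine ⟨4, SimpleGraph.pathGraph 4, inst4, q, SimpleGraph.pathGraph_connected 3, ?_, ?_, h⟩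
  · intro h0
    have : (SimpleGraph.pathGraph 4).Adj 0 1 := by decide
    simp [h0] at this
  · have := (SimpleGraph.pathGraph 4).maxDegree_lt_card_verts
    simp only [Fintype.card_fin] at this
    omega

end Pool.Agent.Results.MP_a221c1_pr.NotMonotone
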